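import Pool.Agent.MP_6b3e96_gt.H77.Spec2
import Pool.Agent.MP_6b3e96_gt.H28.Fold
import Pool.Agent.MP_6b3e96_gt.H98.Green
import Pool.Agent.MP_6b3e96_gt.H20.Kit

/-!
Exact solutions of the sinh-Gordon equation near the approximate ones.
-/

open scoped ContDiff Topology RealInnerProductSpace MeasureTheory Real
open Set Filter Metric MeasureTheory Complex

noncomputable section

namespace Pool.Agent.MP_6b3e96_gt.H61

open Pool.Agent.MP_6b3e96_gt.H77 H98

/-! ### Linear symmetries -/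

theorem D_comp (L : ℂ →L[ℝ] ℂ) (hL : ∀ z, L (L z) = z) (f : ℂ → ℝ) (v : ℂ) :
    D v (fun z => f (L z)) = fun z => D (L v) f (L z) := by
  funext z
  have := (ContinuousLinearEquiv.equivOfInverse L L hL hL).comp_right_fderiv (f := f) (x := z)
  exact congrArg (fun A : ℂ →L[ℝ] ℝ => A v) this

theorem DD_neg (f : ℂ → ℝ) (v : ℂ) : D (-v) (D (-v) f) = D v (D v f) := by
  have e : ∀ g : ℂ → ℝ, D (-v) g = fun z => -D v g z := fun g => funext fun z => by simp [D]
  rw [e, e]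
  funext z
  change -fderiv ℝ (fun z => -D v f z) z v = fderiv ℝ (D v f) z v
  rw [fderiv_fun_neg]
  simp

theorem lap_comp (L : ℂ →L[ℝ] ℂ) (hL : ∀ z, L (L z) = z) (f : ℂ → ℝ) (z : ℂ) :
    lap (fun z => f (L z)) z = D (L 1) (D (L 1) f) (L z) + D (L I) (D (L I) f) (L z) := by
  simp only [lap_eq, D_comp L hL]

/-- The reflection in the real axis. -/
def L0 : ℂ →L[ℝ] ℂ := Complex.conjCLE
/-- The reflection in the imaginary axis. -/
def L1 : ℂ →L[ℝ] ℂ := -L0
/-- The reflection in the diagonal. -/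
def L2 : ℂ →L[ℝ] ℂ := I • L0

theorem L0_eq (z : ℂ) : L0 z = sr 0 z := by apply Complex.ext <;> simp [L0, sr]
theorem L1_eq (z : ℂ) : L1 z = sr 1 z := by apply Complex.ext <;> simp [L1, L0, sr]
theorem L2_eq (z : ℂ) : L2 z = swp z := by apply Complex.ext <;> simp [L2, L0, swp]

theorem L0_inv (z : ℂ) : L0 (L0 z) = z := by simp [L0]
theorem L1_inv (z : ℂ) : L1 (L1 z) = z := by simp [L1, L0]
theorem L2_inv (z : ℂ) : L2 (L2 z) = z := by rw [L2_eq, L2_eq]; rfl

theorem lap_L0 {f : ℂ → ℝ} (h : ∀ z, f (L0 z) = f z) (z : ℂ) : lap f (L0 z) = lap f z := by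
  have := lap_comp L0 L0_inv f z
  rw [funext h, show L0 1 = 1 by simp [L0], show L0 I = -I by simp [L0], DD_neg] at this
  exact this.symm

theorem lap_L1 {f : ℂ → ℝ} (h : ∀ z, f (L1 z) = f z) (z : ℂ) : lap f (L1 z) = lap f z := by
  have := lap_comp L1 L1_inv f z
  rw [funext h, show L1 1 = -1 by simp [L1, L0], show L1 I = I by simp [L1, L0], DD_neg] at this
  exact this.symm

theorem lap_L2 {f : ℂ → ℝ} (h : ∀ z, f (L2 z) = f z) (z : ℂ) : lap f (L2 z) = lap f z := by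
  have := lap_comp L2 L2_inv f z
  rw [funext h, show L2 1 = I by simp [L2, L0], show L2 I = 1 by simp [L2, L0]] at this
  rw [this, add_comm]
  rfl

theorem norm_L0 (z : ℂ) : ‖L0 z‖ = ‖z‖ := by simp [L0]
theorem norm_L1 (z : ℂ) : ‖L1 z‖ = ‖z‖ := by simp [L1, L0]
theorem norm_L2 (z : ℂ) : ‖L2 z‖ = ‖z‖ := by simp [L2, L0]

theorem fold_sr (i : Fin 4) (w : ℂ) : fold (sr i w) = fold w := by
  fin_cases i <;> simp [fold, sr, H28.fold1_neg, H28.fold1_two_sub]

theorem fold_swp (w : ℂ) : fold (swp w) = swp (fold w) := rfl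

theorem fold_of_mem {w : ℂ} (hw : w ∈ Sq) : fold w = w :=
  Complex.ext (H28.fold1_of_mem hw.1) (H28.fold1_of_mem hw.2)

theorem fold1_sq {x : ℝ} (h : |x| ≤ 1) : fold1 x * fold1 x = x * x := by
  obtain ⟨h1, h2⟩ := abs_le.1 h
  rcases le_total x 0 with h0 | h0
  · rw [H28.fold1_left ⟨h1, h0⟩]; ring
  · rw [H28.fold1_of_mem ⟨h0, h2⟩]

theorem norm_fold {w : ℂ} (hw : ‖w‖ ≤ 1) : ‖fold w‖ = ‖w‖ := by
  rw [Complex.norm_def, Complex.norm_def, Complex.normSq_apply, Complex.normSq_apply]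
  change √(fold1 _ * fold1 _ + fold1 _ * fold1 _) = _
  rw [fold1_sq ((Complex.abs_re_le_norm w).trans hw), fold1_sq ((Complex.abs_im_le_norm w).trans hw)]

/-! ### The nonlinearity -/

/-- The nonlinearity of the equation for the correction. -/
def gg (κ : ℝ) (U : ℂ → ℝ) (w : ℂ) (x : ℝ) : ℝ :=
  res κ U w + κ * (U w / ‖w‖) * (Real.exp (2 * x) - 1) - (Real.exp (-2 * x) - 1) * (‖w‖ / U w) -
    9 / 5 * x

theorem exp_near {x : ℝ} (hx : |x| ≤ 0.0002) :
    |Real.exp (2 * x) - 1| ≤ 0.0008 ∧ |Real.exp (-2 * x) - 1| ≤ 0.0008 := by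
  have h1 : |2 * x| ≤ 0.0004 := by rw [abs_mul, abs_two]; linarith
  have h2 : |-2 * x| ≤ 0.0004 := by rw [neg_mul, abs_neg]; exact h1
  exact ⟨(Real.abs_exp_sub_one_le (h1.trans (by norm_num))).trans (by linarith),
    (Real.abs_exp_sub_one_le (h2.trans (by norm_num))).trans (by linarith)⟩

theorem lip_aux {r A B M x y : ℝ}
    (h : ∀ t, |t| ≤ 0.0002 → |2 * A * Real.exp (2 * t) + 2 * B * Real.exp (-2 * t) - 9 / 5| ≤ M)
    (hx : |x| ≤ 0.0002) (hy : |y| ≤ 0.0002) :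
    |(r + A * (Real.exp (2 * x) - 1) - (Real.exp (-2 * x) - 1) * B - 9 / 5 * x) -
      (r + A * (Real.exp (2 * y) - 1) - (Real.exp (-2 * y) - 1) * B - 9 / 5 * y)| ≤
      M * |x - y| := by
  have hd : ∀ t ∈ Icc (-0.0002 : ℝ) 0.0002, HasDerivWithinAt
      (fun x => r + A * (Real.exp (2 * x) - 1) - (Real.exp (-2 * x) - 1) * B - 9 / 5 * x)
      (2 * A * Real.exp (2 * t) + 2 * B * Real.exp (-2 * t) - 9 / 5) (Icc (-0.0002) 0.0002) t := by
    intro t _
    have a1 : HasDerivAt (fun x : ℝ => Real.exp (2 * x)) (Real.exp (2 * t) * (2 * 1)) t :=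
      ((hasDerivAt_id t).const_mul 2).exp
    have a2 : HasDerivAt (fun x : ℝ => Real.exp (-2 * x)) (Real.exp (-2 * t) * (-2 * 1)) t :=
      ((hasDerivAt_id t).const_mul (-2)).exp
    refine (((((a1.sub_const 1).const_mul A).const_add r).fun_sub
      ((a2.sub_const 1).mul_const B)).fun_sub
      ((hasDerivAt_id t).const_mul (9 / 5))).hasDerivWithinAt.congr_deriv ?_
    ring
  exact (convex_Icc _ _).norm_image_sub_le_of_norm_hasDerivWithin_le hd
    (fun t ht => h t (abs_le.2 ht)) (abs_le.1 hy) (abs_le.1 hx)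

variable {κ : ℝ → ℝ} {U : ℝ → ℂ → ℝ} {β : ℂ → ℝ}

theorem U_L0 (h : Appr κ U β) (d : ℝ) (w : ℂ) : U d (L0 w) = U d w := by rw [L0_eq, h.ev]
theorem U_L2 (h : Appr κ U β) (d : ℝ) (w : ℂ) : U d (L2 w) = U d w := by rw [L2_eq, h.sw]
theorem U_L1 (h : Appr κ U β) (d : ℝ) (w : ℂ) : U d (L1 w) = U d w := by
  have : L1 w = L2 (L0 (L2 w)) := by apply Complex.ext <;> simp [L1, L2, L0]
  rw [this, U_L2 h, U_L0 h, U_L2 h]

theorem om0_L0 (h : Appr κ U β) (d : ℝ) (w : ℂ) : om0 (U d) (L0 w) = om0 (U d) w := by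
  rw [om0, om0, U_L0 h, norm_L0]
theorem om0_L1 (h : Appr κ U β) (d : ℝ) (w : ℂ) : om0 (U d) (L1 w) = om0 (U d) w := by
  rw [om0, om0, U_L1 h, norm_L1]
theorem om0_L2 (h : Appr κ U β) (d : ℝ) (w : ℂ) : om0 (U d) (L2 w) = om0 (U d) w := by
  rw [om0, om0, U_L2 h, norm_L2]

theorem gg_swp (h : Appr κ U β) (d : ℝ) (w : ℂ) (x : ℝ) :
    gg (κ d) (U d) (swp w) x = gg (κ d) (U d) w x := by
  rw [← L2_eq, gg, gg, res, res, lap_L2 (om0_L2 h d), U_L2 h, norm_L2]

theorem gg_meas (h : Appr κ U β) (d : ℝ) :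
    Measurable fun p : ℂ × ℝ => gg (κ d) (U d) p.1 p.2 := by
  have h1 : Measurable (U d) :=
    measurable_of_continuousOn_compl_singleton 0 (h.sm d).continuousOn
  have h2 : Measurable (lap (om0 (U d))) :=
    (measurable_fderiv_apply_const ℝ _ _).add (measurable_fderiv_apply_const ℝ _ _)
  unfold gg res
  fun_prop

theorem gg_lip (h : Appr κ U β) {d : ℝ} (hd : d ∈ Icc (-1 : ℝ) 1) {w : ℂ} (hw : w ∈ Sq)
    (h0 : w ≠ 0) {x y : ℝ} (hx : |x| ≤ 0.0002) (hy : |y| ≤ 0.0002) :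
    |gg (κ d) (U d) w x - gg (κ d) (U d) w y| ≤ (β w + 0.0555 / mx w) * |x - y| := by
  refine lip_aux (fun t ht => ?_) hx hy
  obtain ⟨e1, e2⟩ := exp_near ht
  obtain ⟨k1, k2⟩ := h.kb d hd
  obtain ⟨u1, u2, u3⟩ := h.bd d hd w hw
  have hl := h.lip d hd w hw h0
  have hm := H20.mx_pos hw h0
  have hn : 0 < ‖w‖ := norm_pos_iff.2 h0
  have hU : 0 < U d w := by linarith
  have a0 : 0 ≤ κ d * (U d w / ‖w‖) := by positivity
  have a1 : κ d * (U d w / ‖w‖) ≤ 0.04 / mx w := by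
    rw [← mul_div_assoc]
    exact div_le_div₀ (by norm_num) (by nlinarith) hm (H20.mx_le_norm w)
  have b0 : 0 ≤ ‖w‖ / U d w := by positivity
  have b1 : ‖w‖ / U d w ≤ 1.23 := (div_le_iff₀ hU).2 u3
  set A := κ d * (U d w / ‖w‖) with hA
  set B := ‖w‖ / U d w
  have e : 2 * A * Real.exp (2 * t) + 2 * B * Real.exp (-2 * t) - 9 / 5 =
      (2 * κ d * (U d w / ‖w‖) + 2 * B - 9 / 5) + (2 * A * (Real.exp (2 * t) - 1) +
        2 * B * (Real.exp (-2 * t) - 1)) := by rw [hA]; ring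
  have c1 : |2 * A * (Real.exp (2 * t) - 1)| ≤ 2 * A * 0.0008 := by
    rw [abs_mul, abs_of_nonneg (by positivity : 0 ≤ 2 * A)]
    gcongr
  have c2 : |2 * B * (Real.exp (-2 * t) - 1)| ≤ 2 * B * 0.0008 := by
    rw [abs_mul, abs_of_nonneg (by positivity : 0 ≤ 2 * B)]
    gcongr
  have c3 : 0.0555 / mx w = 0.055 / mx w + 0.0125 * (0.04 / mx w) := by ring
  have c4 : 0 ≤ 0.04 / mx w := by positivity
  rw [e]
  refine (abs_add_le _ _).trans ?_
  have := abs_add_le (2 * A * (Real.exp (2 * t) - 1)) (2 * B * (Real.exp (-2 * t) - 1))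
  linarith

theorem gg_cont (h : Appr κ U β) (e : ℝ) (he : 0 < e) : ∃ δ > 0, ∀ d ∈ Icc (-1 : ℝ) 1,
    ∀ d' ∈ Icc (-1 : ℝ) 1, |d - d'| < δ → ∀ w ∈ Sq, w ≠ 0 → ∀ x, |x| ≤ 0.0002 →
      |gg (κ d) (U d) w x - gg (κ d') (U d') w x| ≤ e / mx w := by
  obtain ⟨δ, hδ, H⟩ := h.cont (e / 2) (by positivity)
  refine ⟨δ, hδ, fun d hd d' hd' hdd w hw h0 x hx => ?_⟩
  obtain ⟨hk, H2⟩ := H d hd d' hd' hdd
  obtain ⟨hu, hr⟩ := H2 w hw h0
  obtain ⟨e1, e2⟩ := exp_near hx
  obtain ⟨k1, k2⟩ := h.kb d' hd'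
  obtain ⟨u1, u2, u3⟩ := h.bd d hd w hw
  obtain ⟨v1, v2, v3⟩ := h.bd d' hd' w hw
  have hm := H20.mx_pos hw h0
  have hm1 : mx w ≤ 1 := max_le hw.1.2 hw.2.2
  have hn : 0 < ‖w‖ := norm_pos_iff.2 h0
  have hU : 0 < U d w := by linarith
  have hV : 0 < U d' w := by linarith
  have a1 : |κ d * (U d w / ‖w‖) - κ d' * (U d' w / ‖w‖)| ≤ e / mx w := by
    have : κ d * (U d w / ‖w‖) - κ d' * (U d' w / ‖w‖) =
        ((κ d - κ d') * U d w + κ d' * (U d w - U d' w)) / ‖w‖ := by ring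
    rw [this, abs_div, abs_of_pos hn]
    refine div_le_div₀ he.le ((abs_add_le _ _).trans ?_) hm (H20.mx_le_norm w)
    rw [abs_mul, abs_mul, abs_of_pos hU, abs_of_pos (by linarith : 0 < κ d')]
    have b1 : |κ d - κ d'| * U d w ≤ e / 2 * 1.217 := by gcongr
    have b2 : κ d' * |U d w - U d' w| ≤ 0.03281 * (e / 2) := by gcongr
    linarith
  have a2 : |‖w‖ / U d w - ‖w‖ / U d' w| ≤ e / mx w := by
    have : ‖w‖ / U d w - ‖w‖ / U d' w = -(‖w‖ / U d w * ((U d w - U d' w) / U d' w)) := by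
      field_simp
      ring
    rw [this, abs_neg, abs_mul, abs_div (U d w - _), abs_of_pos hV,
      abs_of_pos (by positivity : 0 < ‖w‖ / U d w)]
    have b1 : ‖w‖ / U d w ≤ 1.23 := (div_le_iff₀ hU).2 u3
    have b2 : |U d w - U d' w| / U d' w ≤ 0.7 * e := by
      rw [div_le_iff₀ hV]
      nlinarith
    have b3 : ‖w‖ / U d w * (|U d w - U d' w| / U d' w) ≤ 1.23 * (0.7 * e) := by gcongr
    have b4 : e ≤ e / mx w := le_div_self he.le hm hm1
    linarith
  have e3 : gg (κ d) (U d) w x - gg (κ d') (U d') w x =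
      (res (κ d) (U d) w - res (κ d') (U d') w) +
      ((κ d * (U d w / ‖w‖) - κ d' * (U d' w / ‖w‖)) * (Real.exp (2 * x) - 1) -
        (‖w‖ / U d w - ‖w‖ / U d' w) * (Real.exp (-2 * x) - 1)) := by
    unfold gg; ring
  have c0 : 0 ≤ e / mx w := by positivity
  have c1 : |(κ d * (U d w / ‖w‖) - κ d' * (U d' w / ‖w‖)) * (Real.exp (2 * x) - 1)| ≤
      e / mx w * 0.0008 := by rw [abs_mul]; gcongr
  have c2 : |(‖w‖ / U d w - ‖w‖ / U d' w) * (Real.exp (-2 * x) - 1)| ≤ e / mx w * 0.0008 := by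
    rw [abs_mul]; gcongr
  have c3 : e / 2 / mx w = e / mx w / 2 := by ring
  rw [e3]
  refine (abs_add_le _ _).trans ?_
  have := abs_sub ((κ d * (U d w / ‖w‖) - κ d' * (U d' w / ‖w‖)) * (Real.exp (2 * x) - 1))
    ((‖w‖ / U d w - ‖w‖ / U d' w) * (Real.exp (-2 * x) - 1))
  linarith

/-! ### The approximate solution -/

theorem om0_cd (h : Appr κ U β) {d : ℝ} (hd : d ∈ Icc (-1 : ℝ) 1) {w : ℂ} (hw : w ∈ Sq)
    (h0 : w ≠ 0) : ContDiffAt ℝ ∞ (om0 (U d)) w := by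
  have h1 : ContDiffAt ℝ ∞ (U d) w := (h.sm d).contDiffAt (isOpen_compl_singleton.mem_nhds h0)
  have hn : ‖w‖ ≠ 0 := norm_ne_zero_iff.2 h0
  have hU : U d w ≠ 0 := by linarith [(h.bd d hd w hw).1]
  exact ((h1.div (contDiffAt_norm ℝ h0) hn).log (div_ne_zero hU hn)).div_const 2

theorem om0_neu (h : Appr κ U β) {d : ℝ} (hd : d ∈ Icc (-1 : ℝ) 1) {w : ℂ} (hw : w ∈ Sq) :
    (w.re = 0 ∨ w.re = 1 → d1 (om0 (U d)) w = 0) ∧
      (w.im = 0 ∨ w.im = 1 → d2 (om0 (U d)) w = 0) := by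
  have key : ∀ w ∈ Sq, w.re = 0 ∨ w.re = 1 → d1 (om0 (U d)) w = 0 := by
    rintro w hw (h1 | h1)
    · have a := congrFun (D_comp L1 L1_inv (om0 (U d)) 1) w
      have b : L1 w = w := by apply Complex.ext <;> simp [L1, L0, h1]
      rw [funext (om0_L1 h d), b, show L1 1 = -1 by simp [L1, L0]] at a
      simp only [D, map_neg] at a
      unfold d1
      linarith
    · exact h.neu d hd w hw h1
  refine ⟨key w hw, fun h1 => ?_⟩
  have a := congrFun (D_comp L2 L2_inv (om0 (U d)) I) w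
  rw [funext (om0_L2 h d), show L2 I = 1 by simp [L2, L0], L2_eq] at a
  exact a.trans (key (swp w) ⟨hw.2, hw.1⟩ h1)

theorem U_cont (h : Appr κ U β) (d : ℝ) : ContinuousAt (U d) 0 := by
  have h1 : ContinuousAt (fun w : ℂ => w ^ ((2 : ℂ)⁻¹)) 0 :=
    Complex.continuousAt_cpow_const_of_re_pos (Or.inl le_rfl) (by norm_num)
  have h2 := (h.smz d).continuous.continuousAt.comp h1
  refine h2.congr (Eventually.of_forall fun w => ?_)
  simp only [Function.comp_apply, Complex.cpow_ofNat_inv_pow]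

theorem abs_log_sub {a b : ℝ} (ha : 0.78 ≤ a) (hb : 0.78 ≤ b) :
    |Real.log a - Real.log b| ≤ 2 * |a - b| := by
  have key : ∀ a b : ℝ, 0.78 ≤ a → 0.78 ≤ b → Real.log a - Real.log b ≤ 2 * |a - b| := by
    intro a b ha hb
    have a0 : 0 < a := by linarith
    have b0 : 0 < b := by linarith
    rw [← Real.log_div a0.ne' b0.ne']
    refine (Real.log_le_sub_one_of_pos (div_pos a0 b0)).trans ?_
    rw [div_sub_one b0.ne', div_le_iff₀ b0]
    nlinarith [le_abs_self (a - b), abs_nonneg (a - b)]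
  refine abs_le.2 ⟨?_, key a b ha hb⟩
  have := key b a hb ha
  rw [abs_sub_comm] at this
  linarith

theorem box_open (a b : ℝ) : IsOpen (box a b \ {0}) :=
  (isOpen_Ioo.reProdIm isOpen_Ioo).sdiff isClosed_singleton

/-! ### The exact solution -/

theorem om1 (hF : FoldStmt) (hR : RegStmt) (h : Appr κ U β) {d : ℝ} (hd : d ∈ Icc (-1 : ℝ) 1)
    {v : ℂ → ℝ} (hc : Continuous v) (hf : ∀ w, v (fold w) = v w) (hs : ∀ w, v (swp w) = v w)
    (hw : ∀ ψ, Test (box (-1) 2) ψ →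
      Integrable (fun w => gg (κ d) (U d) (fold w) (v w) * ψ w) ∧
        ∫ w, v w * (lap ψ w + 9 / 5 * ψ w) = -∫ w, gg (κ d) (U d) (fold w) (v w) * ψ w) :
    Om1 (κ d) fun w => om0 (U d) (fold w) + v w := by
  set om : ℂ → ℝ := fun w => om0 (U d) (fold w) + v w with hom
  have sy : ∀ i w, om (sr i w) = om w := fun i w => by
    simp only [hom]
    rw [← hf (sr i w), fold_sr, hf]
  have c1 : ContinuousOn om (box (-1) 2 \ {0}) := fun w hw =>
    ((ContinuousAt.comp (om0_cd h hd (H28.fold_mem w) (H28.fold_ne_zero hw)).continuousAt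
      H28.continuous_fold.continuousAt).add hc.continuousAt).continuousWithinAt
  have reg := hR (box (-1) 2 \ {0}) 0 om
    (fun p => Real.exp (-2 * p.2) - κ d * Real.exp (2 * p.2)) (box_open _ _) c1
    (by fun_prop) (fun ψ hψ => by
      have t1 : Test (box (-1) 2 \ {0}) ψ := ⟨hψ.1, hψ.2.1, hψ.2.2.trans sdiff_subset⟩
      have t2 : Test (box (-1) 2) ψ := ⟨hψ.1, hψ.2.1, t1.2.2.trans sdiff_subset⟩
      obtain ⟨i1, i2, e1⟩ := hF (om0 (U d)) ψ
        (fun w hw h0 => (om0_cd h hd hw h0).of_le (by norm_cast))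
        (fun w hw _ => om0_neu h hd hw) t1
      obtain ⟨i3, e2⟩ := hw ψ t2
      have i4 := int_mul (box_open _ _) hc.continuousOn (test_lap t1)
      have i5 := (int_mul (box_open _ _) hc.continuousOn t1).const_mul (9 / 5)
      have e3 : ∫ w, v w * (lap ψ w + 9 / 5 * ψ w) =
          (∫ w, v w * lap ψ w) + ∫ w, 9 / 5 * (v w * ψ w) := by
        rw [← integral_add i4 i5]
        congr 1
        funext w
        ring
      have e4 : ∫ w, om w * lap ψ w =
          (∫ w, om0 (U d) (fold w) * lap ψ w) + ∫ w, v w * lap ψ w := by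
        rw [← integral_add i1 i4]
        congr 1
        funext w
        simp only [hom]
        ring
      have e5 : ∫ w, (Real.exp (-2 * om w) - κ d * Real.exp (2 * om w)) * ψ w =
          (∫ w, lap (om0 (U d)) (fold w) * ψ w) - (∫ w, gg (κ d) (U d) (fold w) (v w) * ψ w) -
            ∫ w, 9 / 5 * (v w * ψ w) := by
        have i6 : Integrable fun w => lap (om0 (U d)) (fold w) * ψ w -
          gg (κ d) (U d) (fold w) (v w) * ψ w := i2.sub i3
        rw [← integral_sub i2 i3, ← integral_sub i6 i5]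
        congr 1
        funext w
        by_cases hm : w ∈ box (-1) 2 \ {0}
        · have hn : 0 < ‖fold w‖ := norm_pos_iff.2 (H28.fold_ne_zero hm)
          have hU : 0 < U d (fold w) := by linarith [(h.bd d hd _ (H28.fold_mem w)).1]
          have x1 : Real.exp (2 * om w) = U d (fold w) / ‖fold w‖ * Real.exp (2 * v w) := by
            rw [← Real.exp_log (div_pos hU hn), ← Real.exp_add]
            simp only [hom, om0]
            congr 1
            ring
          have x2 : Real.exp (-2 * om w) = ‖fold w‖ / U d (fold w) * Real.exp (-2 * v w) := by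
            rw [neg_mul, neg_mul, Real.exp_neg, Real.exp_neg, x1, mul_inv, inv_div]
          rw [x1, x2]
          simp only [gg, res]
          ring
        · simp [H28.test_zero t1 hm]
      rw [e4, e5, e1]
      linarith)
  have ext0 : ∀ w, (ContDiffAt ℝ ∞ om (L0 w) ∧
      lap om (L0 w) = Real.exp (-2 * om (L0 w)) - κ d * Real.exp (2 * om (L0 w))) →
      ContDiffAt ℝ ∞ om w ∧ lap om w = Real.exp (-2 * om w) - κ d * Real.exp (2 * om w) := by
    have s : ∀ z, om (L0 z) = om z := fun z => by rw [L0_eq, sy]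
    intro w H
    rw [lap_L0 s, s] at H
    refine ⟨?_, H.2⟩
    rw [← funext s]
    exact H.1.comp w L0.contDiff.contDiffAt
  have ext1 : ∀ w, (ContDiffAt ℝ ∞ om (L1 w) ∧
      lap om (L1 w) = Real.exp (-2 * om (L1 w)) - κ d * Real.exp (2 * om (L1 w))) →
      ContDiffAt ℝ ∞ om w ∧ lap om w = Real.exp (-2 * om w) - κ d * Real.exp (2 * om w) := by
    have s : ∀ z, om (L1 z) = om z := fun z => by rw [L1_eq, sy]
    intro w H
    rw [lap_L1 s, s] at H
    refine ⟨?_, H.2⟩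
    rw [← funext s]
    exact H.1.comp w L1.contDiff.contDiffAt
  have base : ∀ w ∈ box (-2) 2 \ {0}, 0 ≤ w.re → 0 ≤ w.im →
      ContDiffAt ℝ ∞ om w ∧ lap om w = Real.exp (-2 * om w) - κ d * Real.exp (2 * om w) := by
    intro w hw h1 h2
    have hm : w ∈ box (-1) 2 \ {0} :=
      ⟨⟨⟨by linarith, hw.1.1.2⟩, ⟨by linarith, hw.1.2.2⟩⟩, hw.2⟩
    exact ⟨reg.1.contDiffAt ((box_open _ _).mem_nhds hm), reg.2 w hm⟩
  have base1 : ∀ w ∈ box (-2) 2 \ {0}, 0 ≤ w.im →
      ContDiffAt ℝ ∞ om w ∧ lap om w = Real.exp (-2 * om w) - κ d * Real.exp (2 * om w) := by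
    intro w hw h2
    rcases le_total 0 w.re with h1 | h1
    · exact base w hw h1 h2
    · have a : (L1 w).re = -w.re := by simp [L1, L0]
      have b : (L1 w).im = w.im := by simp [L1, L0]
      refine ext1 w (base _ ⟨⟨?_, ?_⟩, fun e => hw.2 ?_⟩ (by linarith) (by linarith))
      · exact ⟨by linarith [hw.1.1.2], by linarith [hw.1.1.1]⟩
      · exact ⟨by linarith [hw.1.2.1], by linarith [hw.1.2.2]⟩
      · rw [← L1_inv w, show L1 w = 0 from e, map_zero]; rfl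
  have all : ∀ w ∈ box (-2) 2 \ {0},
      ContDiffAt ℝ ∞ om w ∧ lap om w = Real.exp (-2 * om w) - κ d * Real.exp (2 * om w) := by
    intro w hw
    rcases le_total 0 w.im with h1 | h1
    · exact base1 w hw h1
    · have a : (L0 w).re = w.re := by simp [L0]
      have b : (L0 w).im = -w.im := by simp [L0]
      refine ext0 w (base1 _ ⟨⟨?_, ?_⟩, fun e => hw.2 ?_⟩ (by linarith))
      · exact ⟨by linarith [hw.1.1.1], by linarith [hw.1.1.2]⟩
      · exact ⟨by linarith [hw.1.2.2], by linarith [hw.1.2.1]⟩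
      · rw [← L0_inv w, show L0 w = 0 from e, map_zero]; rfl
  refine ⟨by linarith [(h.kb d hd).1], fun w hw => (all w hw).1.contDiffWithinAt, sy, fun w => ?_,
    fun w hw h0 => (all w ⟨hw, h0⟩).2⟩
  simp only [hom]
  rw [hs, fold_swp, ← L2_eq, om0_L2 h]

theorem lim0 (h : Appr κ U β) {d : ℝ} (hd : d ∈ Icc (-1 : ℝ) 1) {v : ℂ → ℝ} (hc : Continuous v) :
    Tendsto (fun w => (om0 (U d) (fold w) + v w) + Real.log ‖w‖ / 2) (𝓝[≠] 0)
      (𝓝 (Real.log (U d (fold 0)) / 2 + v 0)) := by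
  have z : (0 : ℂ) ∈ Sq := ⟨by simp, by simp⟩
  have hU : ∀ w, U d (fold w) ≠ 0 := fun w => by linarith [(h.bd d hd _ (H28.fold_mem w)).1]
  have c : ContinuousAt (fun w => U d (fold w)) 0 :=
    ContinuousAt.comp_of_eq (U_cont h d) H28.continuous_fold.continuousAt (fold_of_mem z)
  have c2 : ContinuousAt (fun w => Real.log (U d (fold w)) / 2 + v w) 0 :=
    ((c.log (hU 0)).div_const 2).add hc.continuousAt
  refine (c2.tendsto.mono_left nhdsWithin_le_nhds).congr' ?_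
  filter_upwards [self_mem_nhdsWithin, mem_nhdsWithin_of_mem_nhds (closedBall_mem_nhds 0 one_pos)]
    with w h0 h1
  rw [om0, norm_fold (by simpa using h1), Real.log_div (hU w) (norm_ne_zero_iff.2 h0)]
  ring

theorem solve : SolveStmt := by
  intro hX hF hR κ U β h
  obtain ⟨v, hv, hcont⟩ := hX (fun d => gg (κ d) (U d)) β 0.0002 0.000001 0.0001 0.55 0.0555
    (by norm_num) (by norm_num) (by norm_num) (by norm_num) (gg_meas h) h.βc.measurable h.βb h.βi
    (fun d hd w hw h0 => by simpa [gg] using h.rs d hd w hw h0)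
    (fun d hd w hw h0 x y hx hy => gg_lip h hd hw h0 hx hy) (gg_swp h) (gg_cont h)
    (by norm_num) (by norm_num)
  refine ⟨fun d w => om0 (U d) (fold w) + v d w, fun d hd => ?_, fun e he => ?_⟩
  · obtain ⟨h1, h2, h3, h4, h5⟩ := hv d hd
    refine ⟨om1 hF hR h hd h1 h3 h4 h5, fun w hw _ => ?_, _, lim0 h hd h1⟩
    simp only [fold_of_mem hw, add_sub_cancel_left]
    exact h2 w
  · obtain ⟨δ, hδ, H⟩ := hcont (e / 2) (by positivity)
    obtain ⟨δ', hδ', H'⟩ := h.cont (e / 2) (by positivity)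
    refine ⟨min δ δ', lt_min hδ hδ', fun d hd d' hd' hdd s hs => ?_⟩
    have hw : (⟨s, 1⟩ : ℂ) ∈ Sq := ⟨hs, by simp⟩
    have h0 : (⟨s, 1⟩ : ℂ) ≠ 0 := H20.ne_of_im one_pos
    have a := H d hd d' hd' (hdd.trans_le (min_le_left _ _)) ⟨s, 1⟩
    have b := ((H' d hd d' hd' (hdd.trans_le (min_le_right _ _))).2 _ hw h0).1
    have u1 := (h.bd d hd _ hw).1
    have u2 := (h.bd d' hd' _ hw).1
    have c := abs_log_sub u1 u2
    have hn : ‖(⟨s, 1⟩ : ℂ)‖ ≠ 0 := norm_ne_zero_iff.2 h0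
    simp only [fold_of_mem hw, om0]
    rw [Real.log_div (by linarith) hn, Real.log_div (by linarith) hn]
    obtain ⟨a1, a2⟩ := abs_le.1 a
    obtain ⟨c1, c2⟩ := abs_le.1 c
    exact abs_le.2 ⟨by linarith, by linarith⟩

end Pool.Agent.MP_6b3e96_gt.H61
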